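import Pool.Agent.H40.TM.Lang
import Pool.Agent.H40.TW.Main5

/-!
# Verifiers of unsatisfiability: the theorem in the terms of `TM/Lang.lean`
-/

set_option autoImplicit false

namespace Pool.Agent.H40.TM

open Finset

/-- the same machine -/
def Machine.toTW {n : ℕ} {Q Γ : Type} (A : Machine n Q Γ) :
    Pool.Agent.H40.TW.Machine (Finset (Fin n → Bool)) Q Γ :=
  { start := A.start, acc := A.acc, move := A.move, push := A.push, pop := A.pop }

/-- the same machine -/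
def ofTW {n : ℕ} {Q Γ : Type} (A : Pool.Agent.H40.TW.Machine (Finset (Fin n → Bool)) Q Γ) :
    Machine n Q Γ :=
  { start := A.start, acc := A.acc, move := A.move, push := A.push, pop := A.pop }

lemma comp_toTW {n : ℕ} {Q Γ : Type} (A : Machine n Q Γ) {l : List (Fact n)} {q : Q}
    {σ : List Γ} : A.toTW.Comp l q σ ↔ A.Comp l q σ := by
  constructor
  · intro h
    induction h with
    | start => exact Machine.Comp.start
    | move o q' _ h2 ih => exact Machine.Comp.move o q' ih h2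
    | push g q' _ h2 ih => exact Machine.Comp.push g q' ih h2
    | pop g q' _ h2 ih => exact Machine.Comp.pop g q' ih h2
  · intro h
    induction h with
    | start => exact Pool.Agent.H40.TW.Machine.Comp.start
    | move o q' _ h2 ih => exact Pool.Agent.H40.TW.Machine.Comp.move o q' ih h2
    | push g q' _ h2 ih => exact Pool.Agent.H40.TW.Machine.Comp.push g q' ih h2
    | pop g q' _ h2 ih => exact Pool.Agent.H40.TW.Machine.Comp.pop g q' ih h2

lemma accepts_toTW {n : ℕ} {Q Γ : Type} (A : Machine n Q Γ) {l : List (Fact n)} :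
    A.toTW.Accepts l ↔ A.Accepts l := by
  constructor
  · rintro ⟨q, σ, h1, h2⟩
    exact ⟨q, σ, (comp_toTW A).1 h1, h2⟩
  · rintro ⟨q, σ, h1, h2⟩
    exact ⟨q, σ, (comp_toTW A).2 h1, h2⟩

lemma toTW_ofTW {n : ℕ} {Q Γ : Type}
    (A : Pool.Agent.H40.TW.Machine (Finset (Fin n → Bool)) Q Γ) : (ofTW A).toTW = A := rfl

lemma verifier_toTW {n : ℕ} {Q Γ : Type} (A : Machine n Q Γ) :
    A.toTW.Verifier ↔ A.Verifier := by
  constructor
  · intro h l hl
    exact h l ((accepts_toTW A).2 hl)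
  · intro h l hl
    exact h l ((accepts_toTW A).1 hl)

theorem main : ∀ η : ℝ, 0 < η → η < 1 → ∃ C₀ C : ℕ, 1 ≤ C₀ ∧
    ∀ n w m : ℕ, C ≤ n → n ^ C ≤ 2 ^ w → C * w ≤ n → m = C₀ * n * 2 ^ w →
    ∃ A₁ : ∀ M : ℕ, Machine n (Fin (2 ^ M)) Empty, (∀ M, (A₁ M).Verifier) ∧
    ∀ (Γ : ℕ → Type) (A : ∀ M : ℕ, Machine n (Fin (2 ^ M)) (Γ M)), (∀ M, (A M).Verifier) →
      ∃ B : Finset (Fin m → Clause n), 2 ^ n * B.card ≤ (clausesOf n w).card ^ m ∧
        ∀ F : Fin m → Clause n, (∀ j, F j ∈ clausesOf n w) → F ∉ B →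
          (∀ x, (1 - η) * (m / 2 ^ w) ≤ ((univ.filter (fun j => x ∈ (F j).Viol)).card : ℝ)) ∧
          ∀ M : ℕ, 1 ≤ M → (M : ℝ) ≤ (m : ℝ) ^ (1 - η) →
            (∀ l, (A M).Accepts l → (∀ D ∈ l, Easy F M (2 ^ (Real.logb m M * n)) D) →
              (2 : ℝ) ^ ((1 - Real.logb m M - η) * n) ≤ l.length) ∧
            ((m : ℝ) ^ η ≤ M → ∃ l, (A₁ M).Accepts l ∧ (∀ D ∈ l, ∃ j, D = (F j).Viol) ∧
              (l.length : ℝ) ≤ 2 ^ ((1 - Real.logb m M + η) * n)) := by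
  intro η h0 h1
  obtain ⟨C₀, C, hC₀, h⟩ := Pool.Agent.H40.TW.main5 η h0 h1
  refine ⟨C₀, C, hC₀, ?_⟩
  intro n w m h2 h3 h4 h5
  obtain ⟨A₁, hA₁, h6⟩ := h n w m h2 h3 h4 h5
  refine ⟨fun M => ofTW (A₁ M), fun M => ?_, ?_⟩
  · rw [← verifier_toTW, toTW_ofTW]
    exact hA₁ M
  intro Γ A hA
  obtain ⟨B, hB, h7⟩ := h6 Γ (fun M => (A M).toTW) (fun M => (verifier_toTW (A M)).2 (hA M))
  refine ⟨B, hB, ?_⟩
  intro F hF hFB
  obtain ⟨h8, h9⟩ := h7 F hF hFB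
  refine ⟨h8, ?_⟩
  intro M hM1 hM2
  obtain ⟨h10, h11⟩ := h9 M hM1 hM2
  refine ⟨?_, ?_⟩
  · intro l hl hD
    exact h10 l ((accepts_toTW (A M)).2 hl) hD
  · intro hM3
    obtain ⟨l, hl1, hl2, hl3⟩ := h11 hM3
    refine ⟨l, ?_, hl2, hl3⟩
    rw [← accepts_toTW, toTW_ofTW]
    exact hl1

end Pool.Agent.H40.TM
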