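import Mathlib

/-!
# Verifiers of unsatisfiability with bounded memory and a stack: definitions
-/

set_option autoImplicit false

namespace Pool.Agent.H40.TM

open Finset

/-- A clause in `n` variables: a finite set of literals; the literal `(i, b)` is true under the
assignment `x` if `x i = b`. -/
abbrev Clause (n : ℕ) := Finset (Fin n × Bool)

/-- The set of the assignments which violate the clause. -/
def Clause.Viol {n : ℕ} (C : Clause n) : Finset (Fin n → Bool) :=
  univ.filter (fun x => ∀ l ∈ C, x l.1 ≠ l.2)

/-- The clauses of width exactly `w`: they have `w` literals, in `w` different variables. -/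
def clausesOf (n w : ℕ) : Finset (Clause n) :=
  univ.filter (fun C => C.card = w ∧ (C.image Prod.fst).card = w)

/-- A fact is a set `D` of assignments; it stands for the assertion that no assignment in `D`
satisfies the formula. -/
abbrev Fact (n : ℕ) := Finset (Fin n → Bool)

/-- A nondeterministic pushdown machine with states `Q` and stack symbols `Γ`, which reads facts.
The steps are arbitrary relations: `move a o b` is a step from the state `a` to the state `b` in
which the fact `o` is read (nothing is read if `o = none`), `push a g b` and `pop a g b` are steps
in which `g` is pushed or popped. -/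
structure Machine (n : ℕ) (Q Γ : Type) where
  /-- the initial state -/
  start : Q
  /-- the accepting states -/
  acc : Q → Prop
  /-- steps without the stack -/
  move : Q → Option (Fact n) → Q → Prop
  /-- steps in which a stack symbol is pushed -/
  push : Q → Γ → Q → Prop
  /-- steps in which a stack symbol is popped -/
  pop : Q → Γ → Q → Prop

/-- `A.Comp l q σ`: some computation from the initial state and the empty stack, in which the
facts in `l` are read, ends with the state `q` and the stack `σ`. -/
inductive Machine.Comp {n : ℕ} {Q Γ : Type} (A : Machine n Q Γ) :
    List (Fact n) → Q → List Γ → Prop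
  | start : A.Comp [] A.start []
  | move {l q σ} (o : Option (Fact n)) (q' : Q) : A.Comp l q σ → A.move q o q' →
      A.Comp (l ++ o.toList) q' σ
  | push {l q σ} (g : Γ) (q' : Q) : A.Comp l q σ → A.push q g q' → A.Comp l q' (g :: σ)
  | pop {l q σ} (g : Γ) (q' : Q) : A.Comp l q (g :: σ) → A.pop q g q' → A.Comp l q' σ

/-- Some computation in which the facts in `l` are read ends with an accepting state. -/
def Machine.Accepts {n : ℕ} {Q Γ : Type} (A : Machine n Q Γ) (l : List (Fact n)) : Prop :=
  ∃ q σ, A.Comp l q σ ∧ A.acc q

/-- The machine is a verifier of unsatisfiability: every sequence of facts which it accepts covers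
all assignments. -/
def Machine.Verifier {n : ℕ} {Q Γ : Type} (A : Machine n Q Γ) : Prop :=
  ∀ l, A.Accepts l → ∀ x, ∃ D ∈ l, x ∈ D

/-- Easy facts on the formula `F`: there are at most `q` clauses of `F` and at most `e`
assignments such that every assignment in `D` violates one of these clauses or is one of these
assignments. -/
def Easy {n m : ℕ} (F : Fin m → Clause n) (q e : ℝ) (D : Fact n) : Prop :=
  ∃ (J : Finset (Fin m)) (E : Finset (Fin n → Bool)), (J.card : ℝ) ≤ q ∧ (E.card : ℝ) ≤ e ∧
    ∀ x ∈ D, (∃ j ∈ J, x ∈ (F j).Viol) ∨ x ∈ E

end Pool.Agent.H40.TM
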